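import Pool.Agent.P.MP_5f6af4_co.LO.App

set_option autoImplicit false

namespace Pool.Agent.Results.MP_5f6af4_co.LargeOrder

/-- `D` is a `(v,k,lam)`-difference set modulo `v`. -/
def IsDifferenceSet (v k lam : ℕ) (D : Finset (ZMod v)) : Prop :=
  D.card = k ∧
    ∀ d : ZMod v, d ≠ 0 → ((D ×ˢ D).filter (fun x => x.1 - x.2 = d)).card = lam

/-- The set `sD`. -/
def dilate {v : ℕ} (s : ZMod v) (D : Finset (ZMod v)) : Finset (ZMod v) :=
  D.image (fun x => s * x)

/-- `A` is a translate `B + g` of `B`. -/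
def IsTranslate {v : ℕ} (A B : Finset (ZMod v)) : Prop :=
  ∃ g : ZMod v, A = B.image (fun x => x + g)

/-- A multiplier theorem. Write `n = k - lam = n1 * m`. Let `t` act, up to multipliers, as a power
of every prime dividing `n1`, and let its order modulo every prime factor of `v` exceed
`(2 m) ^ 64`. Then `t` is a multiplier, provided that the prime factors of `v` exceed `s ^ (C s)`
whenever `s ^ 2` divides `m` and all primes dividing `s` have small order; for squarefree `m`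
this last condition is void. -/
theorem result : ∃ C : ℕ, ∀ (v k lam n1 m t : ℕ) [NeZero v] (D : Finset (ZMod v)),
    IsDifferenceSet v k lam D → k = lam + n1 * m → 2 ≤ n1 * m →
    Nat.Coprime n1 v → Nat.Coprime t v →
    (∀ u : ℕ, u.Prime → u ∣ n1 →
      ∃ j : ℕ, IsTranslate (dilate (t : ZMod v) D) (dilate ((u : ZMod v) ^ j) D)) →
    (∀ r : ℕ, r.Prime → r ∣ v → (2 * m) ^ 64 < orderOf (t : ZMod r)) →
    (∀ s : ℕ, s ^ 2 ∣ m →
      (∀ q : ℕ, q.Prime → q ∣ s → ∃ r : ℕ, r.Prime ∧ r ∣ v ∧ orderOf (q : ZMod r) ≤ m ^ 2) →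
      ∀ r : ℕ, r.Prime → r ∣ v → s ^ (C * s) < r) →
    IsTranslate (dilate (t : ZMod v) D) D := by
  obtain ⟨C, hC⟩ := Pool.Agent.P.MP_5f6af4_co.LO.mult
  refine ⟨C, fun v k lam n1 m t _ D hD hn h2 h3 h4 ht h5 h6 =>
    hC v k lam n1 m t D hD.1 hD.2 hn h2 h3 h4 h5 h6 fun u hu hun => ?_⟩
  obtain ⟨j, g, hg⟩ := ht u hu hun
  refine ⟨j, g, ?_⟩
  unfold dilate at hg
  rw [hg, Finset.image_image]
  rfl

end Pool.Agent.Results.MP_5f6af4_co.LargeOrder
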