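import Pool.Agent.P.MP_5f6af4_co.Main

set_option autoImplicit false

namespace Pool.Agent.Results.MP_5f6af4_co.Plotkin

/-- `D` is a `(v,k,lam)`-difference set modulo `v`. -/
def IsDifferenceSet (v k lam : ℕ) (D : Finset (ZMod v)) : Prop :=
  D.card = k ∧
    ∀ d : ZMod v, d ≠ 0 → ((D ×ˢ D).filter (fun x => x.1 - x.2 = d)).card = lam

/-- The set `sD`. -/
def dilate {v : ℕ} (s : ZMod v) (D : Finset (ZMod v)) : Finset (ZMod v) :=
  D.image (fun x => s * x)

/-- `A` is a translate `B + g` of `B`. -/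
def IsTranslate {v : ℕ} (A B : Finset (ZMod v)) : Prop :=
  ∃ g : ZMod v, A = B.image (fun x => x + g)

/-- A multiplier criterion: with `n = k - lam = n1 * m`, `t` congruent, up to multipliers, to a
power of every prime dividing `n1`, `z` likewise for `m`, and `f` at most the order of `z` modulo
every prime divisor of `v`, the inequality forces a power `t ^ i` with `0 < i < J` and `i`
dividing the order of `t` modulo `v` to be a multiplier. -/
theorem result (v k lam n1 m f J t z : ℕ) (e : ℤ) [NeZero v] (D : Finset (ZMod v))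
    (hD : IsDifferenceSet v k lam D) (hn : k = lam + n1 * m) (hm : 0 < m)
    (htv : Nat.Coprime t v) (hzv : Nat.Coprime z v)
    (ht : ∀ u : ℕ, u.Prime → u ∣ n1 →
      ∃ j : ℕ, IsTranslate (dilate (t : ZMod v) D) (dilate ((u : ZMod v) ^ j) D))
    (hz : ∀ q : ℕ, q.Prime → q ∣ m →
      ∃ j : ℕ, IsTranslate (dilate (z : ZMod v) D) (dilate ((q : ZMod v) ^ j) D))
    (hf : ∀ r : ℕ, r.Prime → r ∣ v → f ≤ orderOf (z : ZMod r))
    (hineq : (v : ℤ) * e * (e + 1) + (J : ℤ) * ((J : ℤ) - 2 * e - 1) * (k : ℤ)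
      < (J : ℤ) * ((J : ℤ) - 1) * ((n1 : ℤ) * (f : ℤ))) :
    ∃ i : ℕ, 0 < i ∧ i < J ∧ i ∣ orderOf (t : ZMod v) ∧
      IsTranslate (dilate ((t : ZMod v) ^ i) D) D := by
  refine Pool.Agent.P.MP_5f6af4_co.main v k lam n1 m f J t z e D hD.1 hD.2 hn hm htv hzv
    ?_ ?_ hf hineq
  · intro u hu hun
    obtain ⟨j, g, hg⟩ := ht u hu hun
    refine ⟨j, g, ?_⟩
    unfold dilate at hg
    rw [hg, Finset.image_image]
    rfl
  · intro q hq hqm
    obtain ⟨j, g, hg⟩ := hz q hq hqm
    refine ⟨j, g, ?_⟩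
    unfold dilate at hg
    rw [hg, Finset.image_image]
    rfl

end Pool.Agent.Results.MP_5f6af4_co.Plotkin
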